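import Pool.Agent.K3h88.Loz.Stm

/-!
# Brick H3 of helper88: the growth rate from the closed form
-/

set_option autoImplicit false

namespace Pool.Agent.K3h70.Loz

open Finset Filter Topology
open Pool.Agent.K3h88.Loz

theorem sf_pos (n : ℕ) : 0 < sf n := by
  unfold sf
  exact prod_pos fun i _ => by positivity

theorem side_cast (N m n : ℕ) (hm : Even m) (hn : Even n) :
    ((side N m n : ℕ) : ℝ) = N + (m + n) / 2 := by
  obtain ⟨a, rfl⟩ := hm
  obtain ⟨b, rfl⟩ := hn
  unfold side
  have : (a + a + (b + b)) / 2 = a + b := by omega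
  rw [this]
  push_cast
  ring

theorem side_int (N m n : ℕ) (hm : Even m) (hn : Even n) :
    2 * ((side N m n : ℕ) : ℤ) = 2 * N + m + n := by
  obtain ⟨a, rfl⟩ := hm
  obtain ⟨b, rfl⟩ := hn
  unfold side
  have : (a + a + (b + b)) / 2 = a + b := by omega
  rw [this]
  push_cast
  ring

theorem PP_pos (N m n x : ℕ) (hm : Even m) (hn : Even n) (hx : x ≤ N) :
    0 < PP (Us N m n x) (Es N m n x) := by
  unfold PP
  apply prod_pos
  intro u hu
  apply prod_pos
  intro e he
  have hs := side_int N m n hm hn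
  have hne : u ≠ e := by
    unfold Us at hu
    unfold Es Ds at he
    simp only [mem_union, mem_image, mem_filter, mem_range, mem_Ico] at hu he
    rintro rfl
    rcases hu with ⟨i, ⟨hi, hi2⟩, rfl⟩ | ⟨i, ⟨hi, hi2⟩, rfl⟩
    · rcases he with (he | ⟨j, ⟨hj, hj2⟩, he⟩ | ⟨j, ⟨hj, hj2⟩, he⟩) | he
      · omega
      · have : j = i := by exact_mod_cast he
        subst this
        exact (Nat.not_even_iff_odd.2 hj2) hi2
      · omega
      · omega
    · rcases he with (he | ⟨j, ⟨hj, hj2⟩, he⟩ | ⟨j, ⟨hj, hj2⟩, he⟩) | he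
      · omega
      · omega
      · have : j = i := by omega
        subst this
        exact (Nat.not_even_iff_odd.2 hj2) hi2
      · omega
  exact abs_pos.2 (sub_ne_zero.2 (by exact_mod_cast hne))

/-- the logarithm of the closed form -/
noncomputable def main (N m n x : ℕ) : ℝ :=
  Real.log (sf (N - x)) + Real.log (sf (N + (m + n) + x)) + Real.log (sf (m + N)) +
    Real.log (sf (n + N)) + Real.log (sf (3 * N + (m + n))) + Real.log (sf N) -
    Real.log (sf (side N m n - x)) - Real.log (sf (side N m n + x)) -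
    Real.log (sf (2 * side N m n)) - Real.log (sf (2 * N + m)) - Real.log (sf (2 * N + n))

theorem log_closed (N m n x : ℕ) (hm : Even m) (hn : Even n) (hx : x ≤ N) :
    Real.log (sf (N - x) * sf (N + (m + n) + x) * sf (m + N) * sf (n + N) *
      sf (3 * N + (m + n)) * sf N /
      (sf (side N m n - x) * sf (side N m n + x) * sf (2 * side N m n) * sf (2 * N + m) *
        sf (2 * N + n) * PP (Us N m n x) (Es N m n x))) =
      main N m n x - Real.log (PP (Us N m n x) (Es N m n x)) := by
  have h := fun k => (sf_pos k).ne'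
  have hP := (PP_pos N m n x hm hn hx).ne'
  unfold main
  rw [Real.log_div, Real.log_mul, Real.log_mul, Real.log_mul, Real.log_mul, Real.log_mul,
    Real.log_mul, Real.log_mul, Real.log_mul, Real.log_mul, Real.log_mul]
  · ring
  all_goals first
    | exact h _
    | exact hP
    | (repeat' apply mul_ne_zero) <;> first | exact h _ | exact hP

/-- the identity of the quadratic terms -/
theorem quad (N m n x L : ℝ) (hL : L = N + (m + n) / 2) :
    (N - x) ^ 2 + (N + (m + n) + x) ^ 2 + (m + N) ^ 2 + (n + N) ^ 2 + (3 * N + (m + n)) ^ 2 +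
      N ^ 2 - (L - x) ^ 2 - (L + x) ^ 2 - (2 * L) ^ 2 - (2 * N + m) ^ 2 - (2 * N + n) ^ 2 -
      ((x + m) ^ 2 + (x + n) ^ 2 - 2 * x ^ 2 + (2 * N - x) ^ 2 - (2 * L - x) ^ 2 +
        2 * (2 * L) ^ 2 - (2 * L - m) ^ 2 - (2 * L - n) ^ 2) / 2 = 0 := by
  subst hL
  ring

theorem h3 : StmH3 := by
  intro H1 H2 Hc p h r hp hp2 hh hh1 hr N m n x hA
  obtain ⟨hm, hn, hx, hL, hpt, hht, hrt⟩ := hA
  obtain ⟨C, hC⟩ := H2
  set L : ℕ → ℕ := fun i => side (N i) (m i) (n i) with hLdef
  have hLr : ∀ i, (L i : ℝ) = N i + (m i + n i) / 2 := fun i => side_cast _ _ _ (hm i) (hn i)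
  have hLt : Tendsto (fun i => (L i : ℝ)) atTop atTop := tendsto_natCast_atTop_atTop.comp hL
  have hLpos : ∀ᶠ i in atTop, (0 : ℝ) < L i := hLt.eventually_gt_atTop 0
  have hnpos : ∀ᶠ i in atTop, (0 : ℝ) < n i := by
    have h1 : ∀ᶠ i in atTop, (0 : ℝ) < (m i : ℝ) / n i := hrt.eventually (lt_mem_nhds hr)
    filter_upwards [h1] with i hi
    rcases (Nat.cast_nonneg (n i) : (0 : ℝ) ≤ n i).eq_or_lt with h2 | h2
    · rw [← h2, div_zero] at hi
      exact absurd hi (lt_irrefl _)
    · exact h2
  have hr1 : (0 : ℝ) < 1 + r := by linarith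
  -- the basic limits
  have hnt : Tendsto (fun i => (n i : ℝ) / L i) atTop (𝓝 (p / (1 + r))) := by
    have h1 : Tendsto (fun i => (((m i : ℝ) + n i) / L i) / (1 + (m i : ℝ) / n i)) atTop
        (𝓝 (p / (1 + r))) := hpt.div (tendsto_const_nhds.add hrt) hr1.ne'
    refine h1.congr' ?_
    filter_upwards [hnpos, hLpos] with i hi hi2
    field_simp
    ring
  have hmt : Tendsto (fun i => (m i : ℝ) / L i) atTop (𝓝 (p * r / (1 + r))) := by
    have h1 := hpt.sub hnt
    have h2 : p - p / (1 + r) = p * r / (1 + r) := by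
      field_simp
      ring
    rw [h2] at h1
    refine h1.congr fun i => ?_
    ring
  have hNt : Tendsto (fun i => (N i : ℝ) / L i) atTop (𝓝 (1 - p / 2)) := by
    have h1 : Tendsto (fun i => 1 - (((m i : ℝ) + n i) / L i) / 2) atTop (𝓝 (1 - p / 2)) :=
      tendsto_const_nhds.sub (hpt.div_const 2)
    refine h1.congr' ?_
    filter_upwards [hLpos] with i hi
    have := hLr i
    field_simp
    linarith
  have hLL : Tendsto (fun i => (L i : ℝ) / L i) atTop (𝓝 1) := by
    refine tendsto_const_nhds.congr' ?_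
    filter_upwards [hLpos] with i hi
    rw [div_self hi.ne']
  -- natural subtraction
  have hxN : ∀ i, ((N i - x i : ℕ) : ℝ) = N i - x i := fun i => Nat.cast_sub (hx i)
  have hxL : ∀ i, ((L i - x i : ℕ) : ℝ) = L i - x i := fun i =>
    Nat.cast_sub ((hx i).trans (by rw [hLdef]; simp only [side]; omega))
  have hx2N : ∀ i, ((2 * N i - x i : ℕ) : ℝ) = 2 * N i - x i := fun i => by
    have := hx i
    rw [Nat.cast_sub (by omega)]
    push_cast
    ring
  have hx2L : ∀ i, ((2 * L i - x i : ℕ) : ℝ) = 2 * L i - x i := fun i => by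
    have h1 := hx i
    have h2 : N i ≤ L i := by rw [hLdef]; simp only [side]; omega
    rw [Nat.cast_sub (by omega)]
    push_cast
    ring
  have hint : ∀ i, 2 * L i = 2 * N i + m i + n i := fun i => by
    have := side_int (N i) (m i) (n i) (hm i) (hn i)
    have h3 : ((2 * L i : ℕ) : ℤ) = ((2 * N i + m i + n i : ℕ) : ℤ) := by
      push_cast
      exact this
    exact_mod_cast h3
  have hm2L : ∀ i, ((2 * L i - m i : ℕ) : ℝ) = 2 * L i - m i := fun i => by
    have h1 := hint i
    rw [Nat.cast_sub (by omega)]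
    push_cast
    ring
  have hn2L : ∀ i, ((2 * L i - n i : ℕ) : ℝ) = 2 * L i - n i := fun i => by
    have h1 := hint i
    rw [Nat.cast_sub (by omega)]
    push_cast
    ring
  -- the normalised logarithms
  have key : ∀ (k : ℕ → ℕ) (a : ℕ → ℝ) (ξ : ℝ), (∀ i, (k i : ℝ) = a i) →
      Tendsto (fun i => a i / L i) atTop (𝓝 ξ) →
      Tendsto (fun i => Real.log (sf (k i)) / (L i : ℝ) ^ 2 -
        (a i) ^ 2 * (Real.log (L i) / (2 * (L i : ℝ) ^ 2))) atTop (𝓝 (V ξ)) := by
    intro k a ξ hk ha
    have h1 := H1 L k ξ hL (by simpa only [hk] using ha)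
    refine h1.congr fun i => ?_
    rw [hk i]
    ring
  have e1 := key (fun i => N i - x i) (fun i => (N i : ℝ) - x i) (1 - p / 2 - h) hxN
    (by simpa only [sub_div] using hNt.sub hht)
  have e2 := key (fun i => N i + (m i + n i) + x i) (fun i => (N i : ℝ) + (m i + n i) + x i)
    (1 + p / 2 + h) (fun i => by push_cast; ring) (by
      have h1 := (hNt.add hpt).add hht
      have h2 : 1 - p / 2 + p + h = 1 + p / 2 + h := by ring
      rw [h2] at h1
      refine h1.congr fun i => ?_
      ring)
  have e3 := key (fun i => m i + N i) (fun i => (m i : ℝ) + N i)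
    (p * r / (1 + r) + (1 - p / 2)) (fun i => by push_cast; ring) (by
      refine (hmt.add hNt).congr fun i => ?_
      ring)
  have e4 := key (fun i => n i + N i) (fun i => (n i : ℝ) + N i)
    (p / (1 + r) + (1 - p / 2)) (fun i => by push_cast; ring) (by
      refine (hnt.add hNt).congr fun i => ?_
      ring)
  have e5 := key (fun i => 3 * N i + (m i + n i)) (fun i => 3 * (N i : ℝ) + (m i + n i))
    (3 - p / 2) (fun i => by push_cast; ring) (by
      have h1 := (hNt.const_mul 3).add hpt
      have h2 : 3 * (1 - p / 2) + p = 3 - p / 2 := by ring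
      rw [h2] at h1
      refine h1.congr fun i => ?_
      ring)
  have e6 := key (fun i => N i) (fun i => (N i : ℝ)) (1 - p / 2) (fun i => rfl) hNt
  have e7 := key (fun i => L i - x i) (fun i => (L i : ℝ) - x i) (1 - h) hxL (by
      refine (hLL.sub hht).congr fun i => ?_
      ring)
  have e8 := key (fun i => L i + x i) (fun i => (L i : ℝ) + x i) (1 + h)
    (fun i => by push_cast; ring) (by
      refine (hLL.add hht).congr fun i => ?_
      ring)
  have e9 := key (fun i => 2 * L i) (fun i => 2 * (L i : ℝ)) 2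
    (fun i => by push_cast; ring) (by
      have h1 := hLL.const_mul 2
      rw [mul_one] at h1
      refine h1.congr fun i => ?_
      ring)
  have e10 := key (fun i => 2 * N i + m i) (fun i => 2 * (N i : ℝ) + m i)
    (2 - p + p * r / (1 + r)) (fun i => by push_cast; ring) (by
      have h1 := (hNt.const_mul 2).add hmt
      have h2 : 2 * (1 - p / 2) + p * r / (1 + r) = 2 - p + p * r / (1 + r) := by ring
      rw [h2] at h1
      refine h1.congr fun i => ?_
      ring)
  have e11 := key (fun i => 2 * N i + n i) (fun i => 2 * (N i : ℝ) + n i)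
    (2 - p + p / (1 + r)) (fun i => by push_cast; ring) (by
      have h1 := (hNt.const_mul 2).add hnt
      have h2 : 2 * (1 - p / 2) + p / (1 + r) = 2 - p + p / (1 + r) := by ring
      rw [h2] at h1
      refine h1.congr fun i => ?_
      ring)
  have e12 := key (fun i => x i + m i) (fun i => (x i : ℝ) + m i)
    (h + p * r / (1 + r)) (fun i => by push_cast; ring) (by
      refine (hht.add hmt).congr fun i => ?_
      ring)
  have e13 := key (fun i => x i + n i) (fun i => (x i : ℝ) + n i)
    (h + p / (1 + r)) (fun i => by push_cast; ring) (by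
      refine (hht.add hnt).congr fun i => ?_
      ring)
  have e14 := key (fun i => x i) (fun i => (x i : ℝ)) h (fun i => rfl) hht
  have e15 := key (fun i => 2 * N i - x i) (fun i => 2 * (N i : ℝ) - x i) (2 - p - h) hx2N (by
      have h1 := (hNt.const_mul 2).sub hht
      have h2 : 2 * (1 - p / 2) - h = 2 - p - h := by ring
      rw [h2] at h1
      refine h1.congr fun i => ?_
      ring)
  have e16 := key (fun i => 2 * L i - x i) (fun i => 2 * (L i : ℝ) - x i) (2 - h) hx2L (by
      have h1 := (hLL.const_mul 2).sub hht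
      rw [mul_one] at h1
      refine h1.congr fun i => ?_
      ring)
  have e18 := key (fun i => 2 * L i - m i) (fun i => 2 * (L i : ℝ) - m i)
    (2 - p * r / (1 + r)) hm2L (by
      have h1 := (hLL.const_mul 2).sub hmt
      rw [mul_one] at h1
      refine h1.congr fun i => ?_
      ring)
  have e19 := key (fun i => 2 * L i - n i) (fun i => 2 * (L i : ℝ) - n i)
    (2 - p / (1 + r)) hn2L (by
      have h1 := (hLL.const_mul 2).sub hnt
      rw [mul_one] at h1
      refine h1.congr fun i => ?_
      ring)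
  -- the error term
  have err : Tendsto (fun i => (Real.log (PP (Us (N i) (m i) (n i) (x i))
      (Es (N i) (m i) (n i) (x i))) - Xi (N i) (m i) (n i) (x i) / 2) / (L i : ℝ) ^ 2) atTop
      (𝓝 0) := by
    have h1 : Tendsto (fun i => Real.log (4 * (L i : ℝ)) / (4 * (L i : ℝ))) atTop (𝓝 0) := by
      have h2 : Tendsto (fun y : ℝ => Real.log y / y) atTop (𝓝 0) :=
        Real.isLittleO_log_id_atTop.tendsto_div_nhds_zero
      exact h2.comp (hLt.const_mul_atTop (by norm_num))
    have h2 : Tendsto (fun i => (4 * |C|) * (Real.log (4 * (L i : ℝ)) / (4 * (L i : ℝ)))) atTop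
        (𝓝 0) := by simpa using h1.const_mul (4 * |C|)
    apply squeeze_zero_norm' _ h2
    have hL1 : ∀ᶠ i in atTop, 1 ≤ L i := hL.eventually_ge_atTop 1
    filter_upwards [hL1, hLpos] with i hi hi0
    have h3 := hC (N i) (m i) (n i) (x i) (hm i) (hn i) (hx i) hi
    have hLi1 : (1 : ℝ) ≤ L i := by exact_mod_cast hi
    have hlog : 0 ≤ Real.log (4 * (L i : ℝ)) := Real.log_nonneg (by linarith)
    rw [norm_div, Real.norm_eq_abs, Real.norm_eq_abs, abs_of_pos (pow_pos hi0 2), div_le_iff₀ (pow_pos hi0 2)]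
    have h4 : C * (L i : ℝ) * Real.log (4 * (L i : ℝ)) ≤
        |C| * (L i : ℝ) * Real.log (4 * (L i : ℝ)) := by
      apply mul_le_mul_of_nonneg_right _ hlog
      exact mul_le_mul_of_nonneg_right (le_abs_self C) hi0.le
    have h5 : 4 * |C| * (Real.log (4 * (L i : ℝ)) / (4 * (L i : ℝ))) * (L i : ℝ) ^ 2 =
        |C| * (L i : ℝ) * Real.log (4 * (L i : ℝ)) := by
      field_simp
    rw [h5]
    exact h3.trans h4
  -- assembly
  have tot := (((((((((((e1.add e2).add e3).add e4).add e5).add e6).sub e7).sub e8).sub e9).sub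
    e10).sub e11).sub ((((((((e12.add e13).sub (e14.const_mul 2)).add e15).sub e16).add
    (e9.const_mul 2)).sub e18).sub e19).div_const 2)).sub err
  have hlim : Phi p h r = V (1 - p / 2 - h) + V (1 + p / 2 + h) + V (p * r / (1 + r) + (1 - p / 2)) +
      V (p / (1 + r) + (1 - p / 2)) + V (3 - p / 2) + V (1 - p / 2) - V (1 - h) - V (1 + h) -
      V 2 - V (2 - p + p * r / (1 + r)) - V (2 - p + p / (1 + r)) -
      (V (h + p * r / (1 + r)) + V (h + p / (1 + r)) - 2 * V h + V (2 - p - h) - V (2 - h) +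
      2 * V 2 - V (2 - p * r / (1 + r)) - V (2 - p / (1 + r))) / 2 - 0 := by
    unfold Phi
    ring
  rw [hlim]
  refine tot.congr fun i => ?_
  rw [Hc (N i) (m i) (n i) (x i) (hm i) (hn i) (hx i), log_closed _ _ _ _ (hm i) (hn i) (hx i)]
  have hq := quad (N i) (m i) (n i) (x i) (L i) (hLr i)
  unfold main Xi
  have hs : side (N i) (m i) (n i) = L i := rfl
  rw [hs]
  generalize Real.log (L i : ℝ) / (2 * (L i : ℝ) ^ 2) = Q
  linear_combination (-Q) * hq

end Pool.Agent.K3h70.Loz
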